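import Pool.Agent.Lib.MP_9bfa98_an.Defs
import Pool.Agent.Lib.MP_9bfa98_an.Blaschke

set_option autoImplicit false

open Complex Filter Topology Pool.Agent.Lib.MP_9bfa98_an

namespace Pool.Agent.Results.MP_9bfa98_an.Disproof

/-- For every non-real constant `c` there is a sequence of Nevanlinna functions whose numbers of
poles in every real interval tend to infinity, which stays away from `c` at the point `16 i`, and
for which the number of zeros of `m j - c` in the unit disc minus the number of poles of `m j` in
the unit disc tends to infinity. -/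
theorem result :
    ∀ c : ℂ, c.im ≠ 0 → ∃ m : ℕ → ℂ → ℂ,
      (∀ j, IsNevanlinna (m j)) ∧
      (∀ u v : ℝ, u < v → Tendsto (fun j => {x : ℝ | x ∈ Set.Ioo u v ∧
          meromorphicOrderAt (m j) (x : ℂ) < 0}.ncard) atTop atTop) ∧
      (∀ j, {z : ℂ | meromorphicOrderAt (m j) z < 0}.Finite ∧
        {z : ℂ | 0 < meromorphicOrderAt (fun y => m j y - c) z}.Finite) ∧
      (∃ ε : ℝ, 0 < ε ∧ ∀ j, ε ≤ ‖m j (16 * I) - c‖) ∧
      Tendsto (fun j => (zeroCount (fun y => m j y - c) (Metric.ball 0 1) : ℤ) -
          (poleCount (m j) (Metric.ball 0 1) : ℤ)) atTop atTop :=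
  unbounded_difference

end Pool.Agent.Results.MP_9bfa98_an.Disproof
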